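import Pool.Agent.H23.LB.Targets
import Pool.Agent.H41.HK.GI
import Pool.Agent.H24.RC.GI
import Pool.Agent.Ratios.GammaIntegral

/-!
# Averages over Hecke characters: the Gamma integral (GZ)
-/

set_option autoImplicit false

open NumberField NumberField.InfinitePlace NumberField.Units
  NumberField.Units.dirichletUnitTheorem MeasureTheory Set Filter Complex
open scoped nonZeroDivisors ENNReal

namespace Pool.Agent.H56.GLA

open Pool.Agent.H25.HK Pool.Agent.H23.LB
open Pool.Agent.H28.RC hiding gS cf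

/-- the one-dimensional integral with a complex parameter -/
theorem g1c (e a φ : ℝ) (w : ℂ) (he : 0 < e) (ha : 0 < a) (hφ : |φ| < Real.pi / 2)
    (hw : 0 < w.re) :
    Integrable (fun y : ℝ =>
      cexp (-Real.pi * (cexp (φ * I) * ((e * Real.exp y * a ^ 2 : ℝ) : ℂ))) *
        cexp (w * e * y / 2)) ∧
    ∫ y : ℝ, cexp (-Real.pi * (cexp (φ * I) * ((e * Real.exp y * a ^ 2 : ℝ) : ℂ))) *
        cexp (w * e * y / 2) =
      ((Real.pi * e * a ^ 2 : ℝ) : ℂ) ^ (-(e * w / 2)) * Complex.Gamma (e * w / 2) *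
        cexp (-(φ * (e * w) / 2) * I) := by
  have hφ1 : -(Real.pi / 2) < φ := (abs_lt.1 hφ).1
  have hφ2 : φ < Real.pi / 2 := (abs_lt.1 hφ).2
  have hpi := Real.pi_pos
  set R : ℝ := Real.pi * e * a ^ 2 with hR
  have hR0 : 0 < R := by positivity
  set A : ℂ := e * w / 2 with hAdef
  have hAre : A.re = e * w.re / 2 := by
    rw [hAdef]
    simp
  have hA : 0 < A.re := by
    rw [hAre]
    positivity
  set r : ℂ := (R : ℂ) * cexp (φ * I) with hr
  have hcos : 0 < Real.cos φ := Real.cos_pos_of_mem_Ioo ⟨hφ1, hφ2⟩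
  have hrre : r.re = R * Real.cos φ := by
    rw [hr, Complex.re_ofReal_mul, Complex.exp_ofReal_mul_I_re]
  have hr0 : 0 < r.re := by
    rw [hrre]
    positivity
  let F : ℝ → ℂ := fun x => (x : ℂ) ^ (A - 1) * cexp (-(r * x))
  have hF : IntegrableOn F (Ioi 0) := by
    have h1 : IntegrableOn (fun x : ℝ => x ^ (A.re - 1) * Real.exp (-r.re * x ^ (1 : ℝ)))
        (Ioi 0) := integrableOn_rpow_mul_exp_neg_mul_rpow (by linarith) one_pos hr0
    refine Integrable.mono' h1 ?_ ?_
    · apply ContinuousOn.aestronglyMeasurable _ measurableSet_Ioi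
      apply ContinuousOn.mul
      · intro x hx
        apply ContinuousAt.continuousWithinAt
        apply ContinuousAt.cpow
        · exact Complex.continuous_ofReal.continuousAt
        · exact continuousAt_const
        · left
          simpa using hx
      · fun_prop
    · rw [ae_restrict_iff' measurableSet_Ioi]
      refine Eventually.of_forall fun x hx => ?_
      have hx0 : 0 < x := hx
      change ‖(x : ℂ) ^ (A - 1) * cexp (-(r * x))‖ ≤ _
      rw [norm_mul, Complex.norm_cpow_eq_rpow_re_of_pos hx0, Complex.norm_exp, Real.rpow_one]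
      apply le_of_eq
      congr 1
      congr 1
      rw [Complex.neg_re, Complex.re_mul_ofReal]
      ring
  have himg : Real.exp '' univ = Ioi 0 := by rw [image_univ, Real.range_exp]
  have hcv : ∀ y : ℝ, |Real.exp y| • F (Real.exp y) =
      cexp (-Real.pi * (cexp (φ * I) * ((e * Real.exp y * a ^ 2 : ℝ) : ℂ))) *
        cexp (w * e * y / 2) := by
    intro y
    change |Real.exp y| • (((Real.exp y : ℝ) : ℂ) ^ (A - 1) * cexp (-(r * (Real.exp y : ℝ)))) = _
    rw [abs_of_pos (Real.exp_pos y), Complex.real_smul,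
      Complex.cpow_def_of_ne_zero (by
        rw [Complex.ofReal_ne_zero]; exact (Real.exp_pos y).ne'),
      ← Complex.ofReal_log (Real.exp_pos y).le, Real.log_exp]
    have h1 : cexp (-(r * (Real.exp y : ℝ))) =
        cexp (-Real.pi * (cexp (φ * I) * ((e * Real.exp y * a ^ 2 : ℝ) : ℂ))) := by
      congr 1
      rw [hr, hR, Complex.ofReal_mul (e * Real.exp y) (a ^ 2), Complex.ofReal_mul e,
        Complex.ofReal_mul (Real.pi * e) (a ^ 2), Complex.ofReal_mul Real.pi e]
      ring
    rw [h1]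
    have h2 : ((Real.exp y : ℝ) : ℂ) * cexp (y * (A - 1)) = cexp (w * e * y / 2) := by
      rw [Complex.ofReal_exp, ← Complex.exp_add]
      congr 1
      rw [hAdef]
      ring
    rw [← h2]
    ring
  constructor
  · have h1 := (integrableOn_image_iff_integrableOn_abs_deriv_smul MeasurableSet.univ
      (fun x _ => (Real.hasDerivAt_exp x).hasDerivWithinAt) Real.exp_injective.injOn F).mp
      (himg ▸ hF)
    rw [integrableOn_univ] at h1
    simpa only [hcv] using h1
  · have h1 := integral_image_eq_integral_abs_deriv_smul MeasurableSet.univ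
      (fun x _ => (Real.hasDerivAt_exp x).hasDerivWithinAt) Real.exp_injective.injOn F
    rw [himg, setIntegral_univ] at h1
    simp only [hcv] at h1
    rw [← h1]
    have h2 : ∫ x in Ioi (0 : ℝ), F x = (1 / r) ^ A * Gamma A :=
      Pool.Agent.Ratios.integral_cpow_mul_exp_neg_mul_complex A r hA hr0
    have hsl : r ∈ Complex.slitPlane := Or.inl hr0
    have hrne : r ≠ 0 := Complex.slitPlane_ne_zero hsl
    have hRne : (R : ℂ) ≠ 0 := Complex.ofReal_ne_zero.mpr hR0.ne'
    have hlog : Complex.log r = ((Real.log R : ℝ) : ℂ) + φ * I := by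
      rw [hr, Complex.log_ofReal_mul hR0 (Complex.exp_ne_zero _), Complex.log_exp]
      · simp only [Complex.mul_im, Complex.ofReal_re, Complex.I_im, mul_one, Complex.ofReal_im,
          Complex.I_re, mul_zero, add_zero]
        linarith
      · simp only [Complex.mul_im, Complex.ofReal_re, Complex.I_im, mul_one, Complex.ofReal_im,
          Complex.I_re, mul_zero, add_zero]
        linarith
    have h3 : (1 / r) ^ A = (R : ℂ) ^ (-A) * cexp (-(φ * A) * I) := by
      rw [one_div, Complex.inv_cpow _ _ (Complex.mem_slitPlane_iff_arg.1 hsl).1,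
        ← Complex.cpow_neg, Complex.cpow_def_of_ne_zero hrne, Complex.cpow_def_of_ne_zero hRne,
        hlog, ← Complex.exp_add, ← Complex.ofReal_log hR0.le]
      congr 1
      ring
    have h4 : -(φ * (e * w) / 2) * I = -(φ * A) * I := by
      rw [hAdef]
      ring
    rw [h2, h3, h4]
    ring

/-- the local factor at a place without linear factor -/
theorem loc1 (K : Type) [Field K] [NumberField K] (v : InfinitePlace K) (a : ℝ)
    (ha : 0 < a) (s : ℂ) (ν : ℝ) :
    ((Real.pi * v.mult * a ^ 2 : ℝ) : ℂ) ^ (-((v.mult : ℝ) * (s - ν * I) / 2)) *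
        Complex.Gamma ((v.mult : ℝ) * (s - ν * I) / 2) =
      (open scoped Classical in if IsReal v then Gammaℝ (s - ν * I) else
        2⁻¹ * Gammaℂ (s - ν * I)) *
        (((a ^ v.mult : ℝ) : ℂ) ^ (-s) * cexp (((v.mult : ℝ) * ν * Real.log a : ℝ) * I)) := by
  rw [Pool.Agent.H41.HK.local_factor K v a ha (s - ν * I)]
  congr 1
  have h1 : 0 < a ^ v.mult := by positivity
  have h2 : ((a ^ v.mult : ℝ) : ℂ) ≠ 0 := Complex.ofReal_ne_zero.mpr h1.ne'
  rw [show -(s - ν * I) = -s + ν * I by ring, Complex.cpow_add _ _ h2]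
  congr 1
  rw [Complex.cpow_def_of_ne_zero h2, ← Complex.ofReal_log h1.le, Real.log_pow]
  congr 1
  push_cast
  ring

/-- the local factor at a real place with a linear factor -/
theorem loc2 (a : ℝ) (ha : 0 < a) (s : ℂ) (ν : ℝ) :
    (a : ℂ) * (((Real.pi * 1 * a ^ 2 : ℝ) : ℂ) ^ (-(((1 : ℝ) : ℂ) * (s + 1 - ν * I) / 2)) *
        Complex.Gamma (((1 : ℝ) : ℂ) * (s + 1 - ν * I) / 2)) =
      Gammaℝ (s + 1 - ν * I) *
        (((a : ℝ) : ℂ) ^ (-s) * cexp ((ν * Real.log a : ℝ) * I)) := by
  have h0 := Pool.Agent.H24.RC.real_factor a ha (s - ν * I)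
  have h1 : s - ν * I + 1 = s + 1 - ν * I := by ring
  rw [h1] at h0
  rw [h0]
  congr 1
  have h2 : (a : ℂ) ≠ 0 := Complex.ofReal_ne_zero.mpr ha.ne'
  rw [show -(s - ν * I) = -s + ν * I by ring, Complex.cpow_add _ _ h2]
  congr 1
  rw [Complex.cpow_def_of_ne_zero h2, ← Complex.ofReal_log ha.le]
  congr 1
  push_cast
  ring

open scoped Classical in
/-- the Gamma factor as a product without the powers of `2` -/
theorem prod_gS (K : Type) [Field K] [NumberField K] (S : Finset (RP K))
    (ν : InfinitePlace K → ℝ) (s : ℂ) :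
    ∏ v : InfinitePlace K, (if h : v.IsReal then
      Gammaℝ (s + (if (⟨v, h⟩ : RP K) ∈ S then 1 else 0) - ν v * I) else
        2⁻¹ * Gammaℂ (s - ν v * I)) =
      ((2 : ℂ) ^ nrComplexPlaces K)⁻¹ * Pool.Agent.H23.LB.gS K S ν s := by
  have h1 : ∀ v : InfinitePlace K, (if h : v.IsReal then
      Gammaℝ (s + (if (⟨v, h⟩ : RP K) ∈ S then 1 else 0) - ν v * I) else
        2⁻¹ * Gammaℂ (s - ν v * I)) = (if v.IsReal then (1 : ℂ) else 2⁻¹) *
      (if h : v.IsReal then
        Gammaℝ (s + (if (⟨v, h⟩ : RP K) ∈ S then 1 else 0) - ν v * I) else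
        Gammaℂ (s - ν v * I)) := by
    intro v
    by_cases h : v.IsReal
    · rw [dif_pos h, dif_pos h, if_pos h, one_mul]
    · rw [dif_neg h, dif_neg h, if_neg h]
  rw [Finset.prod_congr rfl fun v _ => h1 v, Finset.prod_mul_distrib,
    Pool.Agent.H23.LB.gS]
  congr 1
  rw [Finset.prod_ite, Finset.prod_const_one, one_mul, Finset.prod_const, inv_pow]
  have h7 : (Finset.univ.filter (fun v : InfinitePlace K => ¬ IsReal v)).card =
      nrComplexPlaces K := by
    rw [nrComplexPlaces, Fintype.card_subtype]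
    congr 1
    ext v
    simp [not_isReal_iff_isComplex]
  rw [h7]

open scoped Classical in
/-- (GZ) the Gamma integral. -/
theorem pf_GZ (h1 : Pool.Agent.H25.HK.T_JA) (h3 : Pool.Agent.H25.HK.T_YC)
    (hPU : Pool.Agent.H23.LB.T_PU) : Pool.Agent.H23.LB.T_GZ := by
  intro K _ _ S x ν φ s hx hν hφ hs
  obtain ⟨hy, -⟩ := h3 K
  have hpr := (hPU K).2.1 ν hν
  let S' : Finset (InfinitePlace K) := S.map ⟨Subtype.val, Subtype.val_injective⟩
  have hS' : ∀ v ∈ S', IsReal v := by
    intro v hv
    obtain ⟨w, -, hw⟩ := Finset.mem_map.1 hv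
    rw [← hw]
    exact w.2
  have hS'' : ∀ (v : InfinitePlace K) (h : v.IsReal), (⟨v, h⟩ : RP K) ∈ S ↔ v ∈ S' := by
    intro v h
    simp only [S', Finset.mem_map, Function.Embedding.coeFn_mk]
    constructor
    · exact fun h9 => ⟨_, h9, rfl⟩
    · rintro ⟨w, hw, hwv⟩
      have : w = ⟨v, h⟩ := Subtype.ext hwv
      rwa [← this]
  let l : InfinitePlace K → ℝ → ℝ := fun v y =>
    if v ∈ S' then Real.exp (y / 2) * v x else 1
  let f : InfinitePlace K → ℝ → ℂ := fun v y => ((l v y : ℝ) : ℂ) *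
    (cexp (-Real.pi * (cexp (φ * I) * ((v.mult * Real.exp y * (v x) ^ 2 : ℝ) : ℂ))) *
      cexp ((s - ν v * I) * (v.mult : ℝ) * y / 2))
  let g : (InfinitePlace K → ℝ) → ℂ := fun y => ∏ v, f v (y v)
  have hvx : ∀ v : InfinitePlace K, 0 < v x := fun v => InfinitePlace.pos_iff.mpr hx
  have hm : ∀ v : InfinitePlace K, 0 < (v.mult : ℝ) := fun v => by
    have := v.mult_pos
    positivity
  have hs0 : ∀ v : InfinitePlace K, 0 < (s - ν v * I).re := by
    intro v
    simpa using hs
  have hs1 : ∀ v : InfinitePlace K, 0 < (s + 1 - ν v * I).re := by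
    intro v
    have : (s + 1 - ν v * I).re = s.re + 1 := by simp
    rw [this]
    linarith
  -- the function at a place of `S`
  have hf1 : ∀ v ∈ S', f v = fun y : ℝ => ((v x : ℝ) : ℂ) *
      (cexp (-Real.pi * (cexp (φ * I) * ((1 * Real.exp y * (v x) ^ 2 : ℝ) : ℂ))) *
        cexp ((s + 1 - ν v * I) * ((1 : ℝ) : ℂ) * y / 2)) := by
    intro v hv
    funext y
    simp only [f, l, if_pos hv, (hS' v hv).mult_eq_one, Nat.cast_one]
    rw [Complex.ofReal_mul (Real.exp (y / 2)), Complex.ofReal_exp (y / 2)]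
    have h4 : cexp ((s + 1 - ν v * I) * ((1 : ℝ) : ℂ) * y / 2) =
        cexp (((y / 2 : ℝ) : ℂ)) * cexp ((s - ν v * I) * ((1 : ℝ) : ℂ) * y / 2) := by
      rw [← Complex.exp_add]
      congr 1
      push_cast
      ring
    rw [h4]
    ring
  have hf2 : ∀ v, v ∉ S' → f v = fun y : ℝ =>
      cexp (-Real.pi * (cexp (φ * I) * (((v.mult : ℝ) * Real.exp y * (v x) ^ 2 : ℝ) : ℂ))) *
        cexp ((s - ν v * I) * (v.mult : ℝ) * y / 2) := by
    intro v hv
    funext y
    simp only [f, l, if_neg hv, Complex.ofReal_one, one_mul]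
  have hfi : ∀ v, Integrable (f v) := by
    intro v
    by_cases hv : v ∈ S'
    · rw [hf1 v hv]
      exact (g1c 1 (v x) φ (s + 1 - ν v * I) one_pos (hvx v) hφ (hs1 v)).1.const_mul _
    · rw [hf2 v hv]
      exact (g1c (v.mult : ℝ) (v x) φ (s - ν v * I) (hm v) (hvx v) hφ (hs0 v)).1
  have hgi : Integrable g := Integrable.fintype_prod hfi
  -- the local integrals
  let G : InfinitePlace K → ℂ := fun v => if h : v.IsReal then
    Gammaℝ (s + (if (⟨v, h⟩ : RP K) ∈ S then 1 else 0) - ν v * I) else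
      2⁻¹ * Gammaℂ (s - ν v * I)
  have h5 : ∀ v : InfinitePlace K, ∫ y, f v y =
      (G v * (((v x) ^ v.mult : ℝ) : ℂ) ^ (-s)) *
        (cexp (((v.mult : ℝ) * ν v * Real.log (v x) : ℝ) * I) *
        cexp (-(φ * ((v.mult : ℝ) * (s - ν v * I) + if v ∈ S' then 1 else 0) / 2) * I)) := by
    intro v
    by_cases hv : v ∈ S'
    · have hre := hS' v hv
      have hG : G v = Gammaℝ (s + 1 - ν v * I) := by
        simp only [G]
        rw [dif_pos hre, if_pos ((hS'' v hre).2 hv)]
      rw [hf1 v hv, integral_const_mul, hre.mult_eq_one, pow_one, hG, if_pos hv, Nat.cast_one,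
        (g1c 1 (v x) φ (s + 1 - ν v * I) one_pos (hvx v) hφ (hs1 v)).2]
      have h8 := loc2 (v x) (hvx v) s (ν v)
      have h9 : -(φ * (((1 : ℝ) : ℂ) * (s + 1 - ν v * I)) / 2) * I =
          -(φ * (((1 : ℝ) : ℂ) * (s - ν v * I) + 1) / 2) * I := by
        push_cast
        ring
      rw [h9, ← mul_assoc, h8, one_mul]
      ring
    · have hG : G v = if IsReal v then Gammaℝ (s - ν v * I) else
          2⁻¹ * Gammaℂ (s - ν v * I) := by
        simp only [G]
        by_cases hre : v.IsReal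
        · rw [dif_pos hre, if_pos hre, if_neg (fun h => hv ((hS'' v hre).1 h)), add_zero]
        · rw [dif_neg hre, if_neg hre]
      rw [hf2 v hv, hG, if_neg hv, add_zero,
        (g1c (v.mult : ℝ) (v x) φ (s - ν v * I) (hm v) (hvx v) hφ (hs0 v)).2,
        loc1 K v (v x) (hvx v) s (ν v)]
      ring
  have hcard1 : (Finset.univ.filter (fun v : InfinitePlace K => v ∈ S')).card = S.card := by
    have : Finset.univ.filter (fun v : InfinitePlace K => v ∈ S') = S' := by
      ext v
      simp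
    rw [this, Finset.card_map]
  have hgv : ∫ y, g y = ((2 : ℂ) ^ nrComplexPlaces K)⁻¹ * Pool.Agent.H23.LB.gS K S ν s *
      (((|Algebra.norm ℚ x| : ℚ) : ℝ) : ℂ) ^ (-s) * ph ν x *
        cexp (-(φ * (Module.finrank ℚ K * s + S.card) / 2) * I) := by
    have h4 : ∫ y, g y = ∏ v : InfinitePlace K, ∫ y, f v y :=
      integral_fintype_prod_volume_eq_prod f
    rw [h4]
    simp_rw [h5]
    rw [Finset.prod_mul_distrib, Finset.prod_mul_distrib, Finset.prod_mul_distrib,
      prod_gS K S ν s, ← Pool.Agent.H41.HK.prod_cpow_of_pos Finset.univ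
        (fun v : InfinitePlace K => (v x) ^ v.mult) (fun v _ => by positivity),
      InfinitePlace.prod_eq_abs_norm, ← Complex.exp_sum, ← Complex.exp_sum, ph, ← mul_assoc]
    congr 1
    · congr 2
      rw [Complex.ofReal_sum, Finset.sum_mul]
    · congr 1
      rw [← Finset.sum_mul]
      congr 1
      rw [Finset.sum_neg_distrib]
      congr 1
      rw [← Finset.sum_div, ← Finset.mul_sum, Finset.sum_add_distrib]
      congr 3
      · have h6 : ∑ v : InfinitePlace K, ((v.mult : ℝ) : ℂ) * (s - ν v * I) =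
            ((∑ v : InfinitePlace K, v.mult : ℕ) : ℂ) * s -
              ((∑ v : InfinitePlace K, (v.mult : ℝ) * ν v : ℝ) : ℂ) * I := by
          push_cast
          rw [Finset.sum_mul, Finset.sum_mul, ← Finset.sum_sub_distrib]
          refine Finset.sum_congr rfl fun v _ => ?_
          ring
        rw [h6, hν, InfinitePlace.sum_mult_eq]
        simp
      · rw [Finset.sum_boole, hcard1]
  have hfun : (fun p : ℝ × logSpace K => g (yc K p.1 p.2)) = (fun p : ℝ × logSpace K =>
      ((|ws K S (yc K p.1 p.2) x| : ℝ) : ℂ) *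
      cexp (-Real.pi * (cexp (φ * I) * ((qK K (yc K p.1 p.2) x : ℝ) : ℂ))) *
        (cexp (s * p.1) * ec K ν p.2)) := by
    funext p
    simp only [g, f]
    rw [Finset.prod_mul_distrib, Finset.prod_mul_distrib, mul_assoc]
    congr 1
    · rw [← Complex.ofReal_prod, abs_ws]
      congr 1
      simp only [l]
      rw [Finset.prod_ite, Finset.prod_const_one, mul_one]
      have h6 : Finset.univ.filter (fun v : InfinitePlace K => v ∈ S') = S' := by
        ext v
        simp
      rw [h6, Finset.prod_map]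
      rfl
    · congr 1
      · rw [← Complex.exp_sum]
        congr 1
        rw [qK, Complex.ofReal_sum, Finset.mul_sum, Finset.mul_sum]
      · rw [← Complex.exp_sum, ec, ← Complex.exp_add]
        congr 1
        have h8 := hy p.1 p.2
        have h9 : ((∑ v, (v.mult : ℝ) * yc K p.1 p.2 v : ℝ) : ℂ) = ((2 * p.1 : ℝ) : ℂ) := by
          rw [h8]
        rw [hpr p.1 p.2]
        have h10 : ∑ v : InfinitePlace K,
            (s - ν v * I) * ((v.mult : ℝ) : ℂ) * ((yc K p.1 p.2 v : ℝ) : ℂ) / 2 =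
            s / 2 * ((∑ v : InfinitePlace K, (v.mult : ℝ) * yc K p.1 p.2 v : ℝ) : ℂ) -
            (((∑ v : InfinitePlace K, (v.mult : ℝ) * ν v * yc K p.1 p.2 v) / 2 : ℝ) : ℂ) * I := by
          push_cast
          rw [Finset.mul_sum, Finset.sum_div, Finset.sum_mul, ← Finset.sum_sub_distrib]
          refine Finset.sum_congr rfl fun v _ => ?_
          ring
        rw [h10, h9]
        push_cast
        ring
  obtain ⟨h11, h12⟩ := h1 K g hgi
  rw [hfun] at h11
  refine ⟨h11, ?_⟩
  have h13 : ∫ p : ℝ × logSpace K, ((|ws K S (yc K p.1 p.2) x| : ℝ) : ℂ) *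
      cexp (-Real.pi * (cexp (φ * I) * ((qK K (yc K p.1 p.2) x : ℝ) : ℂ))) *
        (cexp (s * p.1) * ec K ν p.2) =
      ∫ p : ℝ × logSpace K, g (yc K p.1 p.2) := by rw [hfun]
  rw [h13, h12, hgv, pow_add, mul_inv]
  ring

end Pool.Agent.H56.GLA
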